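import Mathlib

/-!
# Polynomials with zeros in `[-1, 1]` whose derivative peaks inside the interval

Nikolov and Shadrin asked whether `|Q'|` attains its maximum over `[-1, 1]` at an endpoint whenever
`Q` has only real zeros, all in `[-1, 1]`, and `|Q|` attains its maximum over `[-1, 1]` at `1`.  This
fails: the polynomial

`Q = (x + 1)(x + 99/100)(x + 91/100)(x + 82/100)(x + 67/100)(x + 49/100)(x - 1/2)^16`

of degree `22` has `|Q(x)| ≤ Q(1)` on `[-1, 1]`, but `|Q'(-49/50)|` is more than `1.1` times both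
`|Q'(-1)|` and `|Q'(1)|`.
-/

set_option autoImplicit false

open Polynomial

namespace Pool.Agent.Results.MP_512501_an.DegreeTwentyTwo

/-- all zeros of `Q` are real (as many real zeros as the degree, with multiplicity) and lie in
`[-1, 1]` -/
def ZerosIn (Q : ℝ[X]) : Prop :=
  Q.roots.card = Q.natDegree ∧ ∀ z ∈ Q.roots, z ∈ Set.Icc (-1 : ℝ) 1

/-- `max_{[-1,1]} |Q| = |Q(1)|` -/
def RightDominated (Q : ℝ[X]) : Prop :=
  ∀ x ∈ Set.Icc (-1 : ℝ) 1, |Q.eval x| ≤ |Q.eval 1|

/-- `max_{[-1,1]} |Q'| = max (|Q'(-1)|, |Q'(1)|)` -/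
def PeaksAtEndpoint (Q : ℝ[X]) : Prop :=
  ∀ x ∈ Set.Icc (-1 : ℝ) 1,
    |Q.derivative.eval x| ≤ max |Q.derivative.eval (-1)| |Q.derivative.eval 1|

/-- the counterexample -/
noncomputable def P : ℝ[X] :=
  (X - C (-1)) * (X - C (-(99 / 100))) * (X - C (-(91 / 100))) * (X - C (-(82 / 100))) *
    (X - C (-(67 / 100))) * (X - C (-(49 / 100))) * (X - C (1 / 2)) ^ 16

theorem eval_P (x : ℝ) : P.eval x = (x - (-10000) / 10000) * (x - (-9900) / 10000) *
    (x - (-9100) / 10000) * (x - (-8200) / 10000) * (x - (-6700) / 10000) *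
    (x - (-4900) / 10000) * (x - 5000 / 10000) ^ 16 := by
  simp only [P, eval_mul, eval_pow, eval_sub, eval_X, eval_C]
  norm_num

/-! ### A finite check for `x ≤ 0` -/

/-- bound for `|t - z|`, `a ≤ t ≤ b` -/
def B (a b z : ℤ) : ℕ := max (a - z).natAbs (b - z).natAbs

/-- bound for the product, `a ≤ t ≤ b` -/
def PP (a b : ℤ) : ℕ :=
  B a b (-10000) * B a b (-9900) * B a b (-9100) * B a b (-8200) * B a b (-6700) *
    B a b (-4900) * B a b 5000 ^ 16

/-- the value at `t = 10000` -/
def T : ℕ := 20000 * 19900 * 19100 * 18200 * 16700 * 14900 * 5000 ^ 16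

/-- the check for consecutive members of a list -/
def chk : ℤ → List ℤ → Bool
  | _, [] => true
  | a, b :: l => decide (PP a b ≤ T) && chk b l

/-- the last member of the list `a :: l` -/
def lst : ℤ → List ℤ → ℤ
  | a, [] => a
  | _, b :: l => lst b l

/-- the partition of `[-10000, 0]` -/
def part : List ℤ :=
  [-9772, -9691, -9649, -9623, -9605, -9591, -9581, -9572, -9565, -9559, -9553, -9548, -9543,
    -9539, -9535, -9531, -9527, -9523, -9519, -9515, -9511, -9507, -9502, -9497, -9491, -9484,
    -9476, -9466, -9454, -9438, -9416, -9382, -9323, -9190, -8925, -8796, -8699, -8603, -8479,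
    -8244, -7953, -7822, -7745, -7692, -7653, -7622, -7596, -7573, -7552, -7532, -7513, -7494,
    -7474, -7453, -7430, -7404, -7373, -7335, -7284, -7211, -7092, -6849, -6406, -6188, -6035,
    -5904, -5772, -5616, -5394, -4970, -4441, -4142, -3918, -3722, -3527, -3311, -3042, -2660,
    -2013, -559, 0]

theorem chk_part : chk (-10000) part = true := by decide +kernel

theorem lst_part : lst (-10000) part = 0 := by decide +kernel

theorem le_B {a b z : ℤ} {t : ℝ} (h1 : (a : ℝ) ≤ t) (h2 : t ≤ b) : |t - z| ≤ B a b z := by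
  have h := abs_le_max_abs_abs (sub_le_sub_right h1 (z : ℝ)) (sub_le_sub_right h2 (z : ℝ))
  have e : ((B a b z : ℕ) : ℝ) = max |(a : ℝ) - z| |(b : ℝ) - z| := by
    unfold B
    rw [Nat.cast_max, Nat.cast_natAbs, Nat.cast_natAbs, Int.cast_abs, Int.cast_abs]
    push_cast
    rfl
  rw [e]
  exact h

theorem fac {a b z : ℤ} {x : ℝ} (h1 : (a : ℝ) ≤ 10000 * x) (h2 : 10000 * x ≤ b) :
    |x - (z : ℝ) / 10000| ≤ B a b z / 10000 := by
  have h := le_B (z := z) h1 h2
  have e : x - (z : ℝ) / 10000 = (10000 * x - z) / 10000 := by field_simp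
  rw [e, abs_div, abs_of_pos (show (0 : ℝ) < 10000 by norm_num)]
  gcongr

theorem one_interval {a b : ℤ} (h : PP a b ≤ T) {x : ℝ} (h1 : (a : ℝ) ≤ 10000 * x)
    (h2 : 10000 * x ≤ b) : |P.eval x| ≤ (T : ℝ) / 10000 ^ 22 := by
  have hf : ∀ z : ℤ, |x - (z : ℝ) / 10000| ≤ B a b z / 10000 := fun z => fac h1 h2
  have e1 := hf (-10000)
  have e2 := hf (-9900)
  have e3 := hf (-9100)
  have e4 := hf (-8200)
  have e5 := hf (-6700)
  have e6 := hf (-4900)
  have e7 := hf 5000
  push_cast at e1 e2 e3 e4 e5 e6 e7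
  rw [eval_P, abs_mul, abs_mul, abs_mul, abs_mul, abs_mul, abs_mul, abs_pow]
  have hc : ((PP a b : ℕ) : ℝ) ≤ T := by exact_mod_cast h
  calc |x - (-10000) / 10000| * |x - (-9900) / 10000| * |x - (-9100) / 10000| *
        |x - (-8200) / 10000| * |x - (-6700) / 10000| * |x - (-4900) / 10000| *
        |x - 5000 / 10000| ^ 16
      ≤ (B a b (-10000) / 10000) * (B a b (-9900) / 10000) * (B a b (-9100) / 10000) *
        (B a b (-8200) / 10000) * (B a b (-6700) / 10000) * (B a b (-4900) / 10000) *
        (B a b 5000 / 10000) ^ 16 := by gcongr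
    _ = (PP a b : ℝ) / 10000 ^ 22 := by
        unfold PP
        push_cast
        ring
    _ ≤ (T : ℝ) / 10000 ^ 22 := by gcongr

theorem list_bound : ∀ (l : List ℤ) (a : ℤ), chk a l = true → ∀ x : ℝ, (a : ℝ) ≤ 10000 * x →
    10000 * x ≤ lst a l → |P.eval x| ≤ (T : ℝ) / 10000 ^ 22 ∨ l = [] := by
  intro l
  induction l with
  | nil => intro a _ x _ _; exact Or.inr rfl
  | cons b l ih =>
    intro a h x h1 h2
    left
    simp only [chk, Bool.and_eq_true, decide_eq_true_eq] at h
    rcases le_total (10000 * x) b with h3 | h3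
    · exact one_interval h.1 h1 h3
    · rcases ih b h.2 x h3 h2 with h4 | h4
      · exact h4
      · subst h4
        have h5 : 10000 * x = b := le_antisymm h2 h3
        exact one_interval h.1 h1 h5.le

theorem eval_P_one : P.eval 1 = (T : ℝ) / 10000 ^ 22 := by
  rw [eval_P]
  unfold T
  norm_num

theorem dominated : RightDominated P := by
  rintro x ⟨hx1, hx2⟩
  have hT : (0 : ℝ) ≤ (T : ℝ) / 10000 ^ 22 := by positivity
  rw [eval_P_one, abs_of_nonneg hT]
  rcases le_total x 0 with h | h
  · rcases list_bound part (-10000) chk_part x (by push_cast; linarith)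
      (by rw [lst_part]; push_cast; linarith) with h1 | h1
    · exact h1
    · exact absurd h1 (by decide)
  · rw [← eval_P_one, eval_P, eval_P, abs_mul, abs_mul, abs_mul, abs_mul, abs_mul, abs_mul, abs_pow]
    have g : ∀ c : ℝ, c ≤ 0 → |x - c / 10000| ≤ 1 - c / 10000 := by
      intro c hc
      have : c / 10000 ≤ 0 := by linarith
      rw [abs_of_nonneg (by linarith)]
      linarith
    have g7 : |x - 5000 / 10000| ≤ 1 - 5000 / 10000 := by
      rw [abs_le]
      constructor <;> linarith
    have g1 := g (-10000) (by norm_num)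
    have g2 := g (-9900) (by norm_num)
    have g3 := g (-9100) (by norm_num)
    have g4 := g (-8200) (by norm_num)
    have g5 := g (-6700) (by norm_num)
    have g6 := g (-4900) (by norm_num)
    gcongr

theorem natDegree_P : P.natDegree = 22 := by
  unfold P
  compute_degree!

/-- the zeros, with multiplicity -/
noncomputable def Z : Multiset ℝ :=
  {-1, -(99 / 100), -(91 / 100), -(82 / 100), -(67 / 100), -(49 / 100)} +
    Multiset.replicate 16 (1 / 2)

theorem P_eq : P = (Z.map fun a => X - C a).prod := by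
  unfold P Z
  simp only [Multiset.insert_eq_cons, Multiset.map_add, Multiset.map_cons, Multiset.map_singleton,
    Multiset.map_replicate, Multiset.prod_add, Multiset.prod_cons, Multiset.prod_singleton,
    Multiset.prod_replicate]
  ring

theorem zerosIn : ZerosIn P := by
  have h : P.roots = Z := by
    rw [P_eq]
    exact roots_multiset_prod_X_sub_C Z
  refine ⟨?_, fun z hz => ?_⟩
  · rw [h, natDegree_P]
    unfold Z
    simp
  · rw [h] at hz
    unfold Z at hz
    simp only [Multiset.insert_eq_cons, Multiset.mem_add, Multiset.mem_cons,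
      Multiset.mem_singleton, Multiset.mem_replicate] at hz
    rcases hz with (rfl | rfl | rfl | rfl | rfl | rfl) | ⟨-, rfl⟩ <;> constructor <;> norm_num

/-- the derivative peaks inside the interval, by more than ten per cent -/
theorem peak : 11 / 10 * max |P.derivative.eval (-1)| |P.derivative.eval 1| <
    |P.derivative.eval (-(49 / 50))| := by
  have h1 : P.derivative.eval (-1) = ((-1) - (-(99 / 100))) * ((-1) - (-(91 / 100))) *
      ((-1) - (-(82 / 100))) * ((-1) - (-(67 / 100))) * ((-1) - (-(49 / 100))) *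
      ((-1 : ℝ) - 1 / 2) ^ 16 := by
    simp only [P, derivative_mul, derivative_sub, derivative_X, derivative_C, derivative_X_sub_C_pow,
      eval_mul, eval_add, eval_sub, eval_X, eval_C, eval_pow]
    norm_num
  have h2 : P.derivative.eval 1 = P.eval 1 * (1 / 2 + 100 / 199 + 100 / 191 + 100 / 182 +
      100 / 167 + 100 / 149 + 32) := by
    simp only [P, derivative_mul, derivative_sub, derivative_X, derivative_C, derivative_X_sub_C_pow,
      eval_mul, eval_add, eval_sub, eval_X, eval_C, eval_pow]
    norm_num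
  have h3 : P.derivative.eval (-(49 / 50)) = P.eval (-(49 / 50)) * (50 + 100 - 100 / 7 - 100 / 16 -
      100 / 31 - 100 / 49 - 16 * 100 / 148) := by
    simp only [P, derivative_mul, derivative_sub, derivative_X, derivative_C, derivative_X_sub_C_pow,
      eval_mul, eval_add, eval_sub, eval_X, eval_C, eval_pow]
    norm_num
  rw [h1, h2, h3, eval_P, eval_P]
  norm_num [abs_of_pos, abs_of_neg]

/-- **The question of Nikolov and Shadrin has a negative answer.**  There is a polynomial of degree
`22` with all zeros real and in `[-1, 1]`, and `max |Q| = |Q(1)|`, such that `|Q'|` has at an interior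
point a value more than `11/10` times both `|Q'(-1)|` and `|Q'(1)|`. -/
theorem result :
    (∃ Q : ℝ[X], Q.natDegree = 22 ∧ ZerosIn Q ∧ RightDominated Q ∧
      ∃ x₀ ∈ Set.Ioo (-1 : ℝ) 1, 11 / 10 * max |Q.derivative.eval (-1)| |Q.derivative.eval 1| <
        |Q.derivative.eval x₀|) ∧
    ¬ ∀ Q : ℝ[X], 1 ≤ Q.natDegree → ZerosIn Q → RightDominated Q → PeaksAtEndpoint Q := by
  refine ⟨⟨P, natDegree_P, zerosIn, dominated, -(49 / 50), ⟨by norm_num, by norm_num⟩, peak⟩,
    fun h => ?_⟩
  have h1 := h P (by rw [natDegree_P]; norm_num) zerosIn dominated (-(49 / 50))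
    ⟨by norm_num, by norm_num⟩
  have h2 := peak
  have h3 : 0 ≤ max |P.derivative.eval (-1)| |P.derivative.eval 1| :=
    (abs_nonneg _).trans (le_max_left _ _)
  linarith

end Pool.Agent.Results.MP_512501_an.DegreeTwentyTwo
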